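import Pool.Agent.NH87.SN.Mem

/-!
# Testing an upper bound on the spectral norm of a 3-tensor is `∀ℝ`-complete

Sketch. A system of constraints `8 x = 1`, `x + y = z`, `x y = z` over the reals is turned into a
quartic form `F = 16 ∑ q² - z₀² e² + e⁴` with small integer coefficients: the quadratic forms `q` are
the (homogenised) errors of the constraints, of equations `2 w² + s² = 1` which bound the unknowns,
and of a chain of repeated squares which forces `e` to be doubly exponentially small. By the gap
theorem for systems of constraints, `F` takes a negative value iff the system is solvable. If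
`F = ∑ ± zᵢ zⱼ zₖ zₗ` has `p` monomials and `G(x, y)` denotes `12` times its polar form at
`(x, x, y, y)`, then `F ≥ 0` iff `4 p² (|x|² |y|² - ⟨x, y⟩²) + G(x, y) ≥ 0` for all `x, y`. Finally
`(2 p + 3)² |x|² |y|²` minus this biquadratic form is a sum of squares of bilinear forms, each with at
most two terms besides `2 p ⟨x, y⟩`; these are the slices of the tensor `T`, so that the
inequality says that the spectral norm of `T` is at most `2 p + 3`.
-/

namespace Pool.Agent.Results.MP_50cd9e_lc.SpectralNormComplete

open Pool.Agent.NPC Pool.Agent.NPC.ER Pool.Agent.NPC.NH87SN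

/-- SPECTRAL-NORM-BOUND is `∀ℝ`-complete, and SPECTRAL-NORM-EXCEED is `∃ℝ`-complete, under
polynomial-time many-one reductions. -/
theorem result : FRComplete (lang SpectralNormBound) ∧ ERComplete (lang SpectralNormExceed) :=
  ⟨⟨bound_inFR, bound_hard⟩, exceed_inER, exceed_hard⟩

end Pool.Agent.Results.MP_50cd9e_lc.SpectralNormComplete
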